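import Mathlib

/-! THIN (helper55), part `PPR`: the abstract lattice argument. -/

set_option autoImplicit false
set_option linter.all false

namespace Pool.Agent.Helper39.Thin

/-- the statement `Q_LAT` -/
def LATs : Prop := ∀ (p : ℕ) [Fact p.Prime] (m d e : ℕ)
  (T : (Fin m → ℚ_[p]) →ₗ[ℚ_[p]] (Fin m → ℚ_[p])) (Λ : Submodule ℤ_[p] (Fin m → ℚ_[p]))
  (N₀ : Submodule ℚ_[p] (Fin m → ℚ_[p])),
  (∀ x : Fin m → ℚ_[p], ∃ j : ℕ, ((p : ℚ_[p]) ^ j) • x ∈ Λ) → (∀ x ∈ N₀, x ∈ Λ) →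
  (∀ x : Fin m → ℚ_[p], (∀ j : ℕ, ∃ y ∈ Λ, x = ((p : ℚ_[p]) ^ j) • y) → x ∈ N₀) →
  (∀ x ∈ Λ, T x ∈ Λ) → (∀ x ∈ N₀, T x ∈ N₀) →
  (∀ x ∈ Λ, ∃ y ∈ Λ, ((T - 1) ^ d) x = (p : ℚ_[p]) • y) → Nat.Coprime e p →
  (∀ x, (T ^ e) x - x ∈ N₀) → ∀ x, T x - x ∈ N₀

section core

variable {p : ℕ} [hpf : Fact p.Prime] {S : Type} {d m : ℕ}

/-- the combination `∑ x_j b_j` -/
noncomputable def BB (b : Fin m → S → Fin d → ℚ_[p]) :
    (Fin m → ℚ_[p]) →ₗ[ℚ_[p]] (S → Fin d → ℚ_[p]) where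
  toFun x := fun σ => ∑ j, x j • b j σ
  map_add' x y := by
    funext σ
    simp only [Pi.add_apply, add_smul, Finset.sum_add_distrib]
  map_smul' c x := by
    funext σ
    simp only [Pi.smul_apply, smul_eq_mul, mul_smul, Finset.smul_sum, RingHom.id_apply]

theorem BB_apply (b : Fin m → S → Fin d → ℚ_[p]) (x : Fin m → ℚ_[p]) (σ : S) :
    BB b x σ = ∑ j, x j • b j σ := rfl

theorem norm_pQ : ‖(p : ℚ_[p])‖ = (p : ℝ)⁻¹ := by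
  have := Padic.norm_p (p := p)
  exact_mod_cast this

theorem one_ltR (p : ℕ) [hpf : Fact p.Prime] : (1 : ℝ) < p := by exact_mod_cast hpf.out.one_lt

/-- the lattice -/
def Lam (b : Fin m → S → Fin d → ℚ_[p]) : Submodule ℤ_[p] (Fin m → ℚ_[p]) where
  carrier := {x | ∀ σ r, ‖BB b x σ r‖ ≤ 1}
  zero_mem' := by
    intro σ r
    rw [map_zero]
    simp
  add_mem' := by
    intro x y hx hy σ r
    rw [map_add]
    exact (Padic.nonarchimedean _ _).trans (max_le (hx σ r) (hy σ r))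
  smul_mem' := by
    intro c x hx σ r
    have h1 : c • x = (algebraMap ℤ_[p] ℚ_[p] c) • x := (algebraMap_smul ℚ_[p] c x).symm
    rw [h1, map_smul]
    show ‖(algebraMap ℤ_[p] ℚ_[p] c) * BB b x σ r‖ ≤ 1
    rw [norm_mul]
    have h2 : ‖(algebraMap ℤ_[p] ℚ_[p] c)‖ ≤ 1 := PadicInt.norm_le_one c
    exact mul_le_one₀ h2 (norm_nonneg _) (hx σ r)

theorem mem_Lam (b : Fin m → S → Fin d → ℚ_[p]) (x : Fin m → ℚ_[p]) :
    x ∈ Lam b ↔ ∀ σ r, ‖BB b x σ r‖ ≤ 1 := Iff.rfl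

/-- integral matrices preserve integral vectors -/
theorem mul_int (A : Matrix (Fin d) (Fin d) ℤ_[p]) (v : Fin d → ℚ_[p]) (hv : ∀ r, ‖v r‖ ≤ 1)
    (r : Fin d) : ‖(A.map (algebraMap ℤ_[p] ℚ_[p])).mulVec v r‖ ≤ 1 := by
  let z : Fin d → ℤ_[p] := fun s => ⟨v s, hv s⟩
  have h1 : (A.map (algebraMap ℤ_[p] ℚ_[p])).mulVec v r = algebraMap ℤ_[p] ℚ_[p] (A.mulVec z r) := by
    simp only [Matrix.mulVec, dotProduct, map_sum, map_mul, Matrix.map_apply]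
    rfl
  rw [h1]
  exact PadicInt.norm_le_one _

theorem core (hLAT : LATs) (b : Fin m → S → Fin d → ℚ_[p]) (C : ℝ)
    (hb : ∀ j σ r, ‖b j σ r‖ ≤ C) (T : (Fin m → ℚ_[p]) →ₗ[ℚ_[p]] (Fin m → ℚ_[p]))
    (A : Matrix (Fin d) (Fin d) ℤ_[p])
    (hT : ∀ σ, ∃ σ', ∀ x, BB b (T x) σ = (A.map (algebraMap ℤ_[p] ℚ_[p])).mulVec (BB b x σ'))
    (hU : ∀ x, (∀ σ r, ‖BB b x σ r‖ ≤ 1) → ∀ σ r, ‖BB b (((T - 1) ^ d) x) σ r‖ ≤ (p : ℝ)⁻¹)
    (e : ℕ) (he : Nat.Coprime e p) (hTe : ∀ x σ, BB b ((T ^ e) x - x) σ = 0) :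
    ∀ x σ, BB b (T x - x) σ = 0 := by
  have hp1 := one_ltR p
  have hp0 : (0 : ℝ) < p := by linarith
  have hpQ : (p : ℚ_[p]) ≠ 0 := by exact_mod_cast hpf.out.ne_zero
  have key := hLAT p m d e T (Lam b) (LinearMap.ker (BB b)) ?_ ?_ ?_ ?_ ?_ ?_ he ?_
  · intro x σ
    have := key x
    rw [LinearMap.mem_ker] at this
    rw [this]
    rfl
  · intro x
    obtain ⟨n, hn⟩ := pow_unbounded_of_one_lt (∑ j, ‖x j‖ * C) hp1
    refine ⟨n, fun σ r => ?_⟩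
    rw [map_smul]
    show ‖(p : ℚ_[p]) ^ n * BB b x σ r‖ ≤ 1
    rw [norm_mul, norm_pow, norm_pQ, inv_pow, BB_apply, Finset.sum_apply]
    have h1 : ‖∑ j, (x j • b j σ) r‖ ≤ ∑ j, ‖x j‖ * C := by
      refine (norm_sum_le _ _).trans (Finset.sum_le_sum fun j _ => ?_)
      rw [Pi.smul_apply, smul_eq_mul, norm_mul]
      exact mul_le_mul_of_nonneg_left (hb j σ r) (norm_nonneg _)
    rw [inv_mul_le_iff₀ (by positivity), mul_one]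
    exact h1.trans hn.le
  · intro x hx σ r
    rw [LinearMap.mem_ker] at hx
    rw [hx]
    simp
  · intro x hx
    rw [LinearMap.mem_ker]
    funext σ r
    show BB b x σ r = 0
    rw [← norm_eq_zero]
    by_contra hne
    have hpos : 0 < ‖BB b x σ r‖ := lt_of_le_of_ne (norm_nonneg _) (Ne.symm hne)
    obtain ⟨n, hn⟩ := pow_unbounded_of_one_lt (‖BB b x σ r‖)⁻¹ hp1
    obtain ⟨y, hy, hxy⟩ := hx n
    have h1 : BB b x σ r = (p : ℚ_[p]) ^ n * BB b y σ r := by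
      rw [hxy, map_smul]
      rfl
    have h2 : ‖BB b x σ r‖ ≤ ((p : ℝ) ^ n)⁻¹ := by
      rw [h1, norm_mul, norm_pow, norm_pQ, inv_pow]
      have := hy σ r
      calc ((p : ℝ) ^ n)⁻¹ * ‖BB b y σ r‖ ≤ ((p : ℝ) ^ n)⁻¹ * 1 := by gcongr
        _ = _ := mul_one _
    have h3 : ((p : ℝ) ^ n)⁻¹ < ‖BB b x σ r‖ := inv_lt_of_inv_lt₀ hpos hn
    linarith
  · intro x hx σ r
    obtain ⟨σ', h⟩ := hT σ
    rw [h x]
    exact mul_int A _ (fun s => hx σ' s) r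
  · intro x hx
    rw [LinearMap.mem_ker] at hx ⊢
    funext σ
    obtain ⟨σ', h⟩ := hT σ
    rw [h x, hx]
    show (A.map (algebraMap ℤ_[p] ℚ_[p])).mulVec 0 = 0
    exact Matrix.mulVec_zero _
  · intro x hx
    refine ⟨(p : ℚ_[p])⁻¹ • (((T - 1) ^ d) x), fun σ r => ?_, ?_⟩
    · rw [map_smul]
      show ‖(p : ℚ_[p])⁻¹ * BB b (((T - 1) ^ d) x) σ r‖ ≤ 1
      rw [norm_mul, norm_inv, norm_pQ, inv_inv]
      have := hU x hx σ r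
      calc (p : ℝ) * ‖BB b (((T - 1) ^ d) x) σ r‖ ≤ (p : ℝ) * (p : ℝ)⁻¹ := by gcongr
        _ = 1 := mul_inv_cancel₀ hp0.ne'
    · rw [smul_smul, mul_inv_cancel₀ hpQ, one_smul]
  · intro x
    rw [LinearMap.mem_ker]
    funext σ
    exact hTe x σ

end core

end Pool.Agent.Helper39.Thin
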