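import Mathlib
import Pool.Agent.Helper39.Thin.PPRa

/-! THIN (helper55), part `DMQ`: the lattice of a finite-dimensional space of bounded functions. -/

set_option autoImplicit false
set_option linter.all false

namespace Pool.Agent.Helper39.Thin

variable {p : ℕ} [hpf : Fact p.Prime] {S : Type} {d N : ℕ}

/-- the lattice is contained in a multiple of the standard lattice -/
theorem Lam_bdd [TopologicalSpace S] [CompactSpace S] (c : Fin N → S → Fin d → ℚ_[p])
    (hc : ∀ j, Continuous (c j)) (hinj : ∀ x : Fin N → ℚ_[p], (∀ σ, ∑ j, x j • c j σ = 0) → x = 0) :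
    ∃ b : ℕ, ∀ x ∈ Lam c, ∀ j, ‖(p : ℚ_[p]) ^ b * x j‖ ≤ 1 := by
  have hcont : ∀ x, Continuous (BB c x) := by
    intro x
    have h1 : ∀ σ, BB c x σ = ∑ j, x j • c j σ := fun _ => rfl
    have h2 : BB c x = fun σ => ∑ j, x j • c j σ := funext h1
    rw [h2]
    exact continuous_finset_sum _ fun j _ => (continuous_const_smul (x j)).comp (hc j)
  let Φ : (Fin N → ℚ_[p]) →ₗ[ℚ_[p]] C(S, Fin d → ℚ_[p]) :=
    { toFun := fun x => ⟨BB c x, hcont x⟩
      map_add' := fun x y => by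
        ext1 σ
        show BB c (x + y) σ = BB c x σ + BB c y σ
        rw [map_add]
        rfl
      map_smul' := fun a x => by
        ext1 σ
        show BB c (a • x) σ = a • BB c x σ
        rw [map_smul]
        rfl }
  have hker : LinearMap.ker Φ = ⊥ := by
    rw [LinearMap.ker_eq_bot']
    intro x hx
    refine hinj x fun σ => ?_
    have h1 : Φ x σ = 0 := by rw [hx]; rfl
    exact h1
  obtain ⟨K, hK0, hK⟩ := Φ.exists_antilipschitzWith hker
  have hp1 := one_ltR p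
  obtain ⟨b, hb⟩ := pow_unbounded_of_one_lt (K : ℝ) hp1
  refine ⟨b, fun x hx j => ?_⟩
  have h1 : ‖x‖ ≤ K * ‖Φ x‖ := by
    have := hK.le_mul_dist x 0
    rwa [map_zero, dist_zero_right, dist_zero_right] at this
  have h2 : ‖Φ x‖ ≤ 1 := by
    rw [ContinuousMap.norm_le _ zero_le_one]
    intro σ
    rw [pi_norm_le_iff_of_nonneg zero_le_one]
    intro r
    exact hx σ r
  have h3 : ‖x j‖ ≤ K := by
    calc ‖x j‖ ≤ ‖x‖ := norm_le_pi_norm x j
      _ ≤ K * ‖Φ x‖ := h1
      _ ≤ K * 1 := by gcongr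
      _ = K := mul_one _
  rw [norm_mul, norm_pow, norm_pQ, inv_pow, inv_mul_le_iff₀ (by positivity), mul_one]
  exact h3.trans hb.le

/-- a basis of the lattice, with at least `N` elements. -/
theorem exists_basis [TopologicalSpace S] [CompactSpace S] (c : Fin N → S → Fin d → ℚ_[p])
    (hc : ∀ j, Continuous (c j)) (hinj : ∀ x : Fin N → ℚ_[p], (∀ σ, ∑ j, x j • c j σ = 0) → x = 0) :
    ∃ (n : ℕ) (β : Module.Basis (Fin n) ℤ_[p] (Lam c)), N ≤ n := by
  have hp1 := one_ltR p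
  have hpQ : (p : ℚ_[p]) ≠ 0 := by exact_mod_cast hpf.out.ne_zero
  obtain ⟨b, hb⟩ := Lam_bdd c hc hinj
  let Ψ : (Lam c) →ₗ[ℤ_[p]] (Fin N → ℤ_[p]) :=
    { toFun := fun x j => ⟨(p : ℚ_[p]) ^ b * (x : Fin N → ℚ_[p]) j, hb _ x.2 j⟩
      map_add' := fun x y => by
        funext j
        apply PadicInt.ext
        show (p : ℚ_[p]) ^ b * ((x : Fin N → ℚ_[p]) j + (y : Fin N → ℚ_[p]) j) = _
        rw [mul_add]
        rfl
      map_smul' := fun a x => by
        funext j
        apply PadicInt.ext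
        show (p : ℚ_[p]) ^ b * ((a • (x : Fin N → ℚ_[p])) j) =
          (a : ℚ_[p]) * ((p : ℚ_[p]) ^ b * (x : Fin N → ℚ_[p]) j)
        have h1 : (a • (x : Fin N → ℚ_[p])) j = (a : ℚ_[p]) * (x : Fin N → ℚ_[p]) j := rfl
        rw [h1]
        ring }
  have hΨ : Function.Injective Ψ := by
    intro x y hxy
    apply Subtype.ext
    funext j
    have h1 := congrFun hxy j
    have h2 : (p : ℚ_[p]) ^ b * (x : Fin N → ℚ_[p]) j = (p : ℚ_[p]) ^ b * (y : Fin N → ℚ_[p]) j :=
      congrArg Subtype.val h1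
    exact mul_left_cancel₀ (pow_ne_zero _ hpQ) h2
  obtain ⟨n, β⟩ := Submodule.basisOfPid (Pi.basisFun ℤ_[p] (Fin N)) (LinearMap.range Ψ)
  let eq := LinearEquiv.ofInjective Ψ hΨ
  refine ⟨n, β.map eq.symm, ?_⟩
  -- a bound of the functions
  have hbd : ∃ C : ℝ, ∀ j σ r, ‖c j σ r‖ ≤ C := by
    have h1 : ∀ j, ∃ C : ℝ, ∀ σ, ‖c j σ‖ ≤ C := by
      intro j
      have h2 := isCompact_range (hc j)
      obtain ⟨C, hC⟩ := h2.isBounded.exists_norm_le
      exact ⟨C, fun σ => hC _ ⟨σ, rfl⟩⟩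
    choose C hC using h1
    refine ⟨∑ j, |C j|, fun j σ r => ?_⟩
    have h3 : ‖c j σ r‖ ≤ C j := (norm_le_pi_norm _ _).trans (hC j σ)
    have h4 : |C j| ≤ ∑ j, |C j| :=
      Finset.single_le_sum (f := fun j => |C j|) (fun i _ => abs_nonneg _) (Finset.mem_univ j)
    exact h3.trans ((le_abs_self _).trans h4)
  obtain ⟨C, hC⟩ := hbd
  obtain ⟨a, ha⟩ := pow_unbounded_of_one_lt C hp1
  -- the elements `p ^ a e_j`
  have hmem : ∀ j : Fin N, Pi.single j ((p : ℚ_[p]) ^ a) ∈ Lam c := by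
    intro j σ r
    rw [BB_apply]
    have h1 : ∑ i, (Pi.single j ((p : ℚ_[p]) ^ a) : Fin N → ℚ_[p]) i • c i σ =
        ((p : ℚ_[p]) ^ a) • c j σ := by
      rw [Finset.sum_eq_single j]
      · rw [Pi.single_eq_same]
      · intro i _ hij
        rw [Pi.single_eq_of_ne hij, zero_smul]
      · intro h
        exact absurd (Finset.mem_univ j) h
    rw [h1, Pi.smul_apply, smul_eq_mul, norm_mul, norm_pow, norm_pQ, inv_pow,
      inv_mul_le_iff₀ (by positivity), mul_one]
    exact (hC j σ r).trans ha.le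
  let v : Fin N → Lam c := fun j => ⟨_, hmem j⟩
  have hv : LinearIndependent ℤ_[p] v := by
    rw [Fintype.linearIndependent_iff]
    intro g hg i
    have h1 : ((∑ j, g j • v j : Lam c) : Fin N → ℚ_[p]) i = 0 := by
      rw [hg]
      rfl
    rw [Submodule.coe_sum, Finset.sum_apply, Finset.sum_eq_single i] at h1
    · have h2 : (g i : ℚ_[p]) * ((Pi.single i ((p : ℚ_[p]) ^ a) : Fin N → ℚ_[p]) i) = 0 := h1
      rw [Pi.single_eq_same, mul_eq_zero] at h2
      rcases h2 with h2 | h2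
      · exact PadicInt.ext (by rw [h2, PadicInt.coe_zero])
      · exact absurd h2 (pow_ne_zero _ hpQ)
    · intro j _ hji
      show (g j : ℚ_[p]) * ((Pi.single j ((p : ℚ_[p]) ^ a) : Fin N → ℚ_[p]) i) = 0
      rw [Pi.single_eq_of_ne (Ne.symm hji), mul_zero]
    · intro h
      exact absurd (Finset.mem_univ i) h
  have := (β.map eq.symm).card_le_card_of_linearIndependent hv
  simpa using this

end Pool.Agent.Helper39.Thin
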