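import Pool.Agent.Helper55.RT.Spec5
import Pool.Agent.Helper55.RL.Root
import Pool.Agent.Helper23.Thin.TNS
import Pool.Graph.R_seed8.TH115.GD.Ext
import Pool.Agent.Helper39.Thin.PPRa

/-! THIN (helper55), part `PPR`: elements whose order on `M / N₀` is prime to `p` act trivially. -/

set_option autoImplicit false
set_option linter.all false

open Polynomial IsDedekindDomain

namespace Pool.Agent.Helper39.Thin

open Pool.Agent.TH115.GD Pool.Agent.Helper55.RT Pool.Agent.Helper55.TT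
open Pool.Agent.Helper55.RG hiding em_inj VanishL VanishExt
open Pool.Agent.Helper55.RL
open Pool.Agent.Helper23.Thin (actQ_add actQ_sub actQ_smul actQ_sum actQ_mul actQ_one cob_any)

section aux

variable {p : ℕ} [hpf : Fact p.Prime]

theorem toZMod_eq_zero (x : ℤ_[p]) : (p : ℤ_[p]) ∣ x ↔ (PadicInt.toZMod x : ZMod p) = 0 := by
  rw [← RingHom.mem_ker, PadicInt.ker_toZMod, PadicInt.maximalIdeal_eq_span_p,
    Ideal.mem_span_singleton]

theorem norm_of_toZMod {x : ℤ_[p]} (h : (PadicInt.toZMod x : ZMod p) = 0) :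
    ‖(x : ℚ_[p])‖ ≤ (p : ℝ)⁻¹ := by
  rw [← toZMod_eq_zero] at h
  obtain ⟨y, rfl⟩ := h
  rw [PadicInt.coe_mul, norm_mul]
  have h1 : ‖(((p : ℤ_[p]) : ℤ_[p]) : ℚ_[p])‖ = (p : ℝ)⁻¹ := by
    rw [PadicInt.coe_natCast]
    exact norm_pQ
  rw [h1]
  have h2 : ‖(y : ℚ_[p])‖ ≤ 1 := PadicInt.norm_le_one y
  have h3 : (0 : ℝ) ≤ (p : ℝ)⁻¹ := by positivity
  calc (p : ℝ)⁻¹ * ‖(y : ℚ_[p])‖ ≤ (p : ℝ)⁻¹ * 1 := by gcongr
    _ = _ := mul_one _

theorem cont_toZMod : Continuous (fun x : ℤ_[p] => (PadicInt.toZMod x : ZMod p)) := by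
  apply IsLocallyConstant.continuous
  rw [IsLocallyConstant.iff_eventually_eq]
  intro x
  have h1 : Metric.ball x 1 ∈ nhds x := Metric.ball_mem_nhds x one_pos
  filter_upwards [h1] with y hy
  rw [Metric.mem_ball, dist_eq_norm, PadicInt.norm_lt_one_iff_dvd] at hy
  rw [toZMod_eq_zero, map_sub, sub_eq_zero] at hy
  exact hy

theorem coe_mulVec {d : ℕ} (A : Matrix (Fin d) (Fin d) ℤ_[p]) (z : Fin d → ℤ_[p]) (r : Fin d) :
    ((A.mulVec z r : ℤ_[p]) : ℚ_[p]) =
      (A.map (algebraMap ℤ_[p] ℚ_[p])).mulVec (fun s => (z s : ℚ_[p])) r := by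
  have h := RingHom.map_mulVec (algebraMap ℤ_[p] ℚ_[p]) A z r
  exact h

theorem res_cont {K F : Type} [Field K] [Field F] [Algebra K F] :
    Continuous (fun σ : Sep F ≃ₐ[F] Sep F => σ.restrictScalars K) := by
  let r : (Sep F ≃ₐ[F] Sep F) →* (Sep F ≃ₐ[K] Sep F) :=
    { toFun := fun σ => σ.restrictScalars K
      map_one' := rfl
      map_mul' := fun _ _ => rfl }
  have : Continuous r := by
    apply continuous_of_continuousAt_one
    rw [ContinuousAt, map_one]
    intro A hA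
    rw [krullTopology_mem_nhds_one_iff] at hA
    obtain ⟨E, hE, hEA⟩ := hA
    rw [Filter.mem_map, krullTopology_mem_nhds_one_iff]
    obtain ⟨bs⟩ : Nonempty (Module.Basis (Fin (Module.finrank K E)) K E) := ⟨Module.finBasis K E⟩
    haveI : Finite (Set.range fun i => (bs i : Sep F)) := (Set.finite_range _).to_subtype
    refine ⟨IntermediateField.adjoin F (Set.range fun i => (bs i : Sep F)),
      IntermediateField.finiteDimensional_adjoin fun x _ =>
        Algebra.IsIntegral.isIntegral (R := F) x, ?_⟩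
    intro σ hσ
    apply hEA
    rw [SetLike.mem_coe, IntermediateField.mem_fixingSubgroup_iff] at hσ ⊢
    intro x hx
    have h1 : ((r σ : Sep F →ₐ[K] Sep F).toLinearMap ∘ₗ E.val.toLinearMap) =
        E.val.toLinearMap := by
      apply bs.ext
      intro i
      exact hσ _ (IntermediateField.subset_adjoin _ _ ⟨i, rfl⟩)
    exact LinearMap.congr_fun h1 ⟨x, hx⟩
  exact this

end aux

theorem main (hUNP : Q_UNP) (hLIF : Q_LIF) (hLAT : Q_LAT) (hDES : Q_DES) : Q_PPR := by
  intro p hpf k k' K F _ _ _ _ _ _ _ _ _ _ hT hμ s hs hroots d m ρ hρ hpro hun δ hδ hδfin hδF c hc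
    hloc a hno hla τ e he hτe x₀
  haveI := hT.sep
  haveI := hT.fracK
  have hN : Preserves K F (Sep F) := preserves hT.map
  rcases Nat.eq_zero_or_pos m with rfl | hm
  · refine ⟨0, fun σ => ?_⟩
    show (∑ j : Fin 0, (actQ δ τ x₀ - x₀) j • c j σ) = actQ ρ (σ.restrictScalars K) 0 - 0
    rw [Finset.univ_eq_empty, Finset.sum_empty, sub_zero]
    exact (Matrix.mulVec_zero _).symm
  obtain ⟨ι, _, _⟩ := hla ⟨0, hm⟩
  choose y hy using fun j => cob_any (hc.mul j) (hla j) ι
  -- the element of the decomposition group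
  obtain ⟨δ', κ, hκfin, hκn, hδ'1, hlift, hres, hcomp⟩ := hDES p k k' K F hT m δ hδ hδfin hδF
  haveI := hκfin
  obtain ⟨τ₁, hD, hτ₁⟩ := hLIF k k' K F hT a κ ι τ
  obtain ⟨ν, hν⟩ := hres τ
  obtain ⟨ν₁, hν₁⟩ := hres τ₁
  have hag : ∀ z ∈ κ, ν₁ z = ν z := by
    intro z hz
    apply Pool.Agent.Helper55.RL.em_inj (k' := k') (F := F)
    show em k' F (Sep F) (C (ν₁ z)) = em k' F (Sep F) (C (ν z))
    rw [← hν₁, hτ₁ z hz, hν]
  have hδeq : δ τ₁ = δ τ := by
    rw [hcomp τ ν hν, hcomp τ₁ ν₁ hν₁]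
    have h1 : δ' (ν⁻¹ * ν₁) = 1 := hδ'1 _ fun x hx => by
      show ν⁻¹ (ν₁ x) = x
      rw [hag x hx]
      show (ν⁻¹ * ν) x = x
      rw [inv_mul_cancel]
      rfl
    rw [map_mul, map_inv, inv_mul_eq_one] at h1
    exact h1.symm
  -- the normalised cocycles
  set b : Fin m → (Sep F ≃ₐ[F] Sep F) → Fin d → ℚ_[p] :=
    fun j σ => c j σ - (actQ ρ (σ.restrictScalars K) (y j) - y j) with hb
  have rmul : ∀ σ σ' : Sep F ≃ₐ[F] Sep F, (σ * σ').restrictScalars K =
      σ.restrictScalars K * σ'.restrictScalars K := fun _ _ => rfl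
  have hbmul : ∀ j σ σ', b j (σ * σ') = b j σ + actQ ρ (σ.restrictScalars K) (b j σ') := by
    intro j σ σ'
    simp only [hb]
    rw [hc.mul, rmul, actQ_sub, actQ_sub, ← actQ_mul]
    abel
  have hb0 : ∀ j σ, InLoc k' (pl (algebraMap k k' a)) ι σ → b j σ = 0 := by
    intro j σ hσ
    simp only [hb]
    rw [hy j σ hσ, sub_self]
  have hcontact : ∀ z : Fin d → ℚ_[p],
      Continuous fun σ : Sep F ≃ₐ[F] Sep F => actQ ρ (σ.restrictScalars K) z := by
    intro z
    have h1 : Continuous fun σ : Sep F ≃ₐ[K] Sep F => actQ ρ σ z := by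
      have h2 : Continuous fun σ : Sep F ≃ₐ[K] Sep F => (ρ σ).1 := Units.continuous_val.comp hρ
      have h3 : Continuous fun σ : Sep F ≃ₐ[K] Sep F => (ρ σ).1.map (algebraMap ℤ_[p] ℚ_[p]) := by
        refine continuous_matrix fun i j => ?_
        have h4 : Continuous fun σ : Sep F ≃ₐ[K] Sep F => (ρ σ).1 i j :=
          (continuous_apply_apply i j).comp h2
        exact continuous_subtype_val.comp h4
      exact h3.matrix_mulVec continuous_const
    exact h1.comp res_cont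
  have hbcont : ∀ j, Continuous (b j) := by
    intro j
    exact (hc.cont j).sub ((hcontact (y j)).sub continuous_const)
  -- the exact relation
  have hrel : ∀ (σ σ' : Sep F ≃ₐ[F] Sep F), (∀ x, τ₁ (σ' x) = σ (τ₁ x)) → ∀ j,
      actQ ρ τ₁ (b j σ') = ∑ i, algebraMap ℤ_[p] ℚ_[p] ((δ τ₁).1 i j) • b i σ := by
    have hgrp : ∀ (σ σ' : Sep F ≃ₐ[F] Sep F), (∀ x, τ₁ (σ' x) = σ (τ₁ x)) →
        τ₁ * σ'.restrictScalars K = σ.restrictScalars K * τ₁ := by
      intro σ σ' h
      exact AlgEquiv.ext fun x => h x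
    intro σ₀ σ₀' hσ₀ j
    obtain ⟨z, hz⟩ := hc.equiv τ₁ j
    set z' : Fin d → ℚ_[p] := z - actQ ρ τ₁ (y j) +
      ∑ i, algebraMap ℤ_[p] ℚ_[p] ((δ τ₁).1 i j) • y i with hz'
    have h1 : ∀ (σ σ' : Sep F ≃ₐ[F] Sep F), (∀ x, τ₁ (σ' x) = σ (τ₁ x)) →
        actQ ρ τ₁ (b j σ') - ∑ i, algebraMap ℤ_[p] ℚ_[p] ((δ τ₁).1 i j) • b i σ =
          actQ ρ (σ.restrictScalars K) z' - z' := by
      intro σ σ' h
      have h2 := hz σ σ' h
      have h3 := hgrp σ σ' h
      have h4 : actQ ρ τ₁ (actQ ρ (σ'.restrictScalars K) (y j)) =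
          actQ ρ (σ.restrictScalars K) (actQ ρ τ₁ (y j)) := by
        rw [← actQ_mul, ← actQ_mul, h3]
      simp only [hb, hz']
      rw [actQ_sub, actQ_sub, h4, actQ_add, actQ_sub, actQ_sum]
      simp only [smul_sub, Finset.sum_sub_distrib, actQ_smul]
      have h5 : actQ ρ τ₁ (c j σ') = ∑ i, algebraMap ℤ_[p] ℚ_[p] ((δ τ₁).1 i j) • c i σ +
          (actQ ρ (σ.restrictScalars K) z - z) := by
        rw [← h2]; abel
      rw [h5]
      abel
    have h6 : z' = 0 := by
      apply hno ι z'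
      intro σ hσ
      obtain ⟨σ', hσ'⟩ := Pool.Agent.TH115.GD.exists_conj hN τ₁ σ
      have hin : InLoc k' (pl (algebraMap k k' a)) ι σ' := by
        refine (Pool.Agent.Helper55.UV.InD.inv' hD).conj hσ fun x => ?_
        have h1 : τ₁ (σ' (τ₁⁻¹ x)) = σ (τ₁ (τ₁⁻¹ x)) := hσ' (τ₁⁻¹ x)
        have h3 : τ₁ (τ₁⁻¹ x) = x := by
          show (τ₁ * τ₁⁻¹) x = x
          rw [mul_inv_cancel]
          rfl
        rw [h3] at h1
        apply τ₁.injective
        rw [h1]
        show σ x = (τ₁ * τ₁⁻¹) (σ x)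
        rw [mul_inv_cancel]
        rfl
      have h7 := h1 σ σ' hσ'
      rw [hb0 j σ' hin] at h7
      have h8 : ∑ i, algebraMap ℤ_[p] ℚ_[p] ((δ τ₁).1 i j) • b i σ = 0 := by
        refine Finset.sum_eq_zero fun i _ => ?_
        rw [hb0 i σ hσ, smul_zero]
      have h9 : actQ ρ τ₁ (0 : Fin d → ℚ_[p]) = 0 := Matrix.mulVec_zero _
      rw [h8, h9, sub_zero] at h7
      exact (sub_eq_zero.1 h7.symm)
    have h10 := h1 σ₀ σ₀' hσ₀
    have h11 : actQ ρ (σ₀.restrictScalars K) (0 : Fin d → ℚ_[p]) = 0 := Matrix.mulVec_zero _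
    rw [h6, h11, sub_zero] at h10
    exact sub_eq_zero.1 h10
  -- the operator
  set T : (Fin m → ℚ_[p]) →ₗ[ℚ_[p]] (Fin m → ℚ_[p]) :=
    Matrix.mulVecLin ((δ τ₁).1.map (algebraMap ℤ_[p] ℚ_[p])) with hTdef
  have hTx : ∀ x, T x = actQ δ τ₁ x := fun _ => rfl
  have hTpow : ∀ (n : ℕ) x, (T ^ n) x = actQ δ (τ₁ ^ n) x := by
    intro n
    induction n with
    | zero => intro x; rw [pow_zero, pow_zero, actQ_one]; rfl
    | succ n ih =>
      intro x
      rw [pow_succ', pow_succ', actQ_mul, ← ih]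
      rfl
  have hBT : ∀ (σ σ' : Sep F ≃ₐ[F] Sep F), (∀ x, τ₁ (σ' x) = σ (τ₁ x)) → ∀ x,
      BB b (T x) σ = ((ρ τ₁).1.map (algebraMap ℤ_[p] ℚ_[p])).mulVec (BB b x σ') := by
    intro σ σ' h x
    show BB b (T x) σ = actQ ρ τ₁ (BB b x σ')
    rw [BB_apply, BB_apply, actQ_sum]
    have h1 : ∀ j, actQ ρ τ₁ (x j • b j σ') =
        ∑ i, (algebraMap ℤ_[p] ℚ_[p] ((δ τ₁).1 i j) * x j) • b i σ := by
      intro j
      rw [actQ_smul, hrel σ σ' h j, Finset.smul_sum]
      refine Finset.sum_congr rfl fun i _ => ?_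
      rw [smul_smul, mul_comm]
    rw [Finset.sum_congr rfl fun j _ => h1 j, Finset.sum_comm]
    refine Finset.sum_congr rfl fun i _ => ?_
    rw [← Finset.sum_smul]
    rfl
  have hcob : ∀ z : Fin m → ℚ_[p], IsCob ρ (fun σ => ∑ j, z j • c j σ) ↔
      ∀ σ, BB b z σ = 0 := by
    intro z
    have h1 : ∀ σ, BB b z σ = ∑ j, z j • c j σ -
        (actQ ρ (σ.restrictScalars K) (∑ j, z j • y j) - ∑ j, z j • y j) := by
      intro σ
      rw [BB_apply, actQ_sum]
      simp only [hb, smul_sub, Finset.sum_sub_distrib, actQ_smul]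
    constructor
    · rintro ⟨u, hu⟩
      have h2 : ∀ σ, BB b z σ = actQ ρ (σ.restrictScalars K) (u - ∑ j, z j • y j) -
          (u - ∑ j, z j • y j) := by
        intro σ
        have h3 := hu σ
        simp only at h3
        rw [h1, h3, actQ_sub]
        abel
      have h4 : u - ∑ j, z j • y j = 0 := by
        apply hno ι
        intro σ hσ
        have h5 : BB b z σ = 0 := by
          rw [BB_apply]
          refine Finset.sum_eq_zero fun j _ => ?_
          rw [hb0 j σ hσ, smul_zero]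
        have h6 := h2 σ
        rw [h5] at h6
        exact sub_eq_zero.1 h6.symm
      intro σ
      rw [h2, h4]
      have h7 : actQ ρ (σ.restrictScalars K) (0 : Fin d → ℚ_[p]) = 0 := Matrix.mulVec_zero _
      rw [h7, sub_zero]
    · intro h
      refine ⟨∑ j, z j • y j, fun σ => ?_⟩
      have h2 := h1 σ
      rw [h σ] at h2
      exact (sub_eq_zero.1 h2.symm)
  rw [show (fun σ => ∑ j, (actQ δ τ x₀ - x₀) j • c j σ) =
    (fun σ => ∑ j, (T x₀ - x₀) j • c j σ) by
      rw [hTx]; unfold actQ; rw [hδeq], hcob]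
  -- boundedness
  have hbd : ∃ C : ℝ, ∀ j σ r, ‖b j σ r‖ ≤ C := by
    have h1 : ∀ j, ∃ C : ℝ, ∀ σ, ‖b j σ‖ ≤ C := by
      intro j
      have h2 := isCompact_range (hbcont j)
      obtain ⟨C, hC⟩ := h2.isBounded.exists_norm_le
      exact ⟨C, fun σ => hC _ ⟨σ, rfl⟩⟩
    choose C hC using h1
    refine ⟨∑ j, |C j|, fun j σ r => ?_⟩
    have h3 : ‖b j σ r‖ ≤ C j := (norm_le_pi_norm _ _).trans (hC j σ)
    have h4 : |C j| ≤ ∑ j, |C j| :=
      Finset.single_le_sum (f := fun j => |C j|) (fun i _ => abs_nonneg _) (Finset.mem_univ j)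
    exact h3.trans ((le_abs_self _).trans h4)
  obtain ⟨Cb, hCb⟩ := hbd
  refine core (show LATs from hLAT) b Cb hCb T (ρ τ₁).1 ?_ ?_ e he ?_ x₀
  · intro σ
    obtain ⟨σ', hσ'⟩ := Pool.Agent.TH115.GD.exists_conj hN τ₁ σ
    exact ⟨σ', hBT σ σ' hσ'⟩
  · intro x hx σ₀ r₀
    have hsucc : ∀ i : ℕ, ((T - 1) ^ (i + 1)) x = T (((T - 1) ^ i) x) - ((T - 1) ^ i) x := by
      intro i
      rw [pow_succ']
      rfl
    have hL : ∀ i : ℕ, ((T - 1) ^ i) x ∈ Lam b := by
      intro i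
      induction i with
      | zero =>
        rw [pow_zero]
        exact hx
      | succ i ih =>
        rw [hsucc]
        refine (Lam b).sub_mem ?_ ih
        intro σ r
        obtain ⟨σ', hσ'⟩ := Pool.Agent.TH115.GD.exists_conj hN τ₁ σ
        rw [hBT σ σ' hσ']
        exact mul_int _ _ (fun s => ih σ' s) r
    let g : ℕ → (Sep F ≃ₐ[F] Sep F) → Fin d → ℤ_[p] :=
      fun i σ r => ⟨BB b (((T - 1) ^ i) x) σ r, hL i σ r⟩
    have hg : ∀ i σ r, ((g i σ r : ℤ_[p]) : ℚ_[p]) = BB b (((T - 1) ^ i) x) σ r :=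
      fun _ _ _ => rfl
    let f : ℕ → (Sep F ≃ₐ[F] Sep F) → Fin d → ZMod p := fun i σ r => PadicInt.toZMod (g i σ r)
    let ρb : (Sep F ≃ₐ[K] Sep F) →* GL (Fin d) (ZMod p) :=
      (Matrix.GeneralLinearGroup.map (PadicInt.toZMod : ℤ_[p] →+* ZMod p)).comp ρ
    have hρb : ∀ (σ : Sep F ≃ₐ[K] Sep F) (z : Fin d → ℤ_[p]) (r : Fin d),
        (ρb σ).1.mulVec (fun s => (PadicInt.toZMod (z s) : ZMod p)) r =
          PadicInt.toZMod ((ρ σ).1.mulVec z r) := by
      intro σ z r
      exact (RingHom.map_mulVec (PadicInt.toZMod : ℤ_[p] →+* ZMod p) (ρ σ).1 z r).symm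
    have hBmul : ∀ (z : Fin m → ℚ_[p]) (σ σ' : Sep F ≃ₐ[F] Sep F), BB b z (σ * σ') =
        BB b z σ + actQ ρ (σ.restrictScalars K) (BB b z σ') := by
      intro z σ σ'
      rw [BB_apply, BB_apply, BB_apply, actQ_sum, ← Finset.sum_add_distrib]
      refine Finset.sum_congr rfl fun j _ => ?_
      rw [hbmul, smul_add, actQ_smul]
    have hmain := hUNP p k k' K F hT hμ s hs hroots d ρb ?_ ?_ τ₁ f ?_ ?_ ?_ ?_ σ₀
    · have h1 : (PadicInt.toZMod (g d σ₀ r₀) : ZMod p) = 0 := congrFun hmain r₀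
      exact norm_of_toZMod h1
    · intro σ
      obtain ⟨n, hn⟩ := hpro σ (fun z hz => by
        obtain ⟨w, rfl⟩ := IntermediateField.mem_bot.1 hz
        exact σ.commutes w)
      refine ⟨n, ?_⟩
      apply Units.ext
      ext i j
      have h1 := hn i j
      rw [toZMod_eq_zero, Matrix.sub_apply, map_sub, sub_eq_zero] at h1
      show PadicInt.toZMod ((ρ (σ ^ p ^ n)).1 i j) = (1 : Matrix (Fin d) (Fin d) (ZMod p)) i j
      rw [h1, Matrix.one_apply, Matrix.one_apply]
      split_ifs <;> simp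
    · intro v hv ι' σ hσ
      have h1 := hun v hv ι' σ hσ
      show Matrix.GeneralLinearGroup.map _ (ρ (σ.restrictScalars K)) = 1
      rw [h1, map_one]
    · intro i
      refine continuous_pi fun r => ?_
      have h0 : ∀ (w : ℚ_[p]) (j : Fin m), Continuous (fun σ => w • b j σ) :=
        fun w j => (continuous_const_smul w).comp (hbcont j)
      have h1 : Continuous fun σ => BB b (((T - 1) ^ i) x) σ := by
        simp only [BB_apply]
        exact continuous_finset_sum _ fun j _ => h0 _ j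
      have h2 : Continuous fun σ => g i σ r :=
        Continuous.subtype_mk ((continuous_apply r).comp h1) _
      exact cont_toZMod.comp h2
    · intro i σ σ'
      funext r
      show PadicInt.toZMod (g i (σ * σ') r) = PadicInt.toZMod (g i σ r) +
        (ρb (σ.restrictScalars K)).1.mulVec (f i σ') r
      have h1 : g i (σ * σ') r = g i σ r + (ρ (σ.restrictScalars K)).1.mulVec (g i σ') r := by
        apply PadicInt.ext
        rw [PadicInt.coe_add, coe_mulVec, hg, hg, hBmul]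
        rfl
      rw [h1, map_add]
      congr 1
      exact (hρb _ _ _).symm
    · intro i v hv ι' σ hσ
      funext r
      show PadicInt.toZMod (g i σ r) = 0
      have h1 : g i σ r = 0 := by
        apply PadicInt.ext
        rw [hg, PadicInt.coe_zero, BB_apply]
        have h2 : ∀ j, b j σ = 0 := by
          intro j
          obtain ⟨u, hu⟩ := cob_any (hc.mul j) (hloc j v hv) ι'
          have h3 := hun v hv ι' σ hσ
          have h4 : ∀ w : Fin d → ℚ_[p], actQ ρ (σ.restrictScalars K) w = w := by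
            intro w
            unfold actQ
            rw [h3, Units.val_one, Matrix.map_one _ (map_zero _) (map_one _), Matrix.one_mulVec]
          simp only [hb]
          rw [hu σ hσ, h4, h4, sub_self, sub_self, sub_self]
        rw [Finset.sum_eq_zero (fun j _ => by rw [h2 j, smul_zero])]
        rfl
      rw [h1, map_zero]
    · intro i σ σ' h
      funext r
      show PadicInt.toZMod (g (i + 1) σ r) = (ρb τ₁).1.mulVec (f i σ') r -
        PadicInt.toZMod (g i σ r)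
      have h1 : g (i + 1) σ r = (ρ τ₁).1.mulVec (g i σ') r - g i σ r := by
        apply PadicInt.ext
        rw [PadicInt.coe_sub, coe_mulVec, hg, hg, hsucc, map_sub]
        show BB b (T _) σ r - BB b _ σ r = _
        rw [hBT σ σ' h]
      rw [h1, map_sub]
      congr 1
      exact (hρb _ _ _).symm
  · intro x
    rw [← hcob]
    have h1 := hτe x
    have h2 : (T ^ e) x = actQ δ (τ ^ e) x := by
      rw [hTpow]
      unfold actQ
      rw [map_pow, map_pow, hδeq]
    rw [h2]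
    exact h1

end Pool.Agent.Helper39.Thin
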