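import Pool.Agent.Helper55.RT.Spec6
import Pool.Agent.Helper39.Thin.PPR
import Pool.Agent.Helper39.Thin.DMQa

/-! THIN (helper55), part `DMQ`: cocycles with values in `ℚ_p ^ d`. -/

set_option autoImplicit false
set_option linter.all false

open Polynomial IsDedekindDomain

namespace Pool.Agent.Helper39.Thin.DMQ

open Pool.Agent.TH115.GD Pool.Agent.Helper55.RT Pool.Agent.Helper55.TT
open Pool.Agent.Helper55.RG hiding em_inj VanishL VanishExt
open Pool.Agent.Helper55.RL
open Pool.Agent.Helper39.Thin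
open Pool.Agent.Helper23.Thin (actQ_add actQ_sub actQ_smul actQ_sum actQ_mul actQ_one cob_any)

theorem acl {k k' : Type} [Field k] [CharZero k] [Field k'] [Algebra k k'] [IsSepClosure k k'] :
    IsAlgClosed k' := by
  haveI : CharZero k' := charZero_of_injective_algebraMap (algebraMap k k').injective
  haveI : IsSepClosed k' := IsSepClosure.sep_closed k
  infer_instance

theorem main (hDMF : Q_DMF) : Q_DMQ := by
  intro p hpf k k' K F _ _ _ _ _ _ _ _ _ _ hT s hs d N ρ hρ hpro hun hN c hc hcmul hloc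
  haveI := hT.sep
  haveI := hT.fracK
  haveI : CharZero k' := charZero_of_injective_algebraMap (algebraMap k k').injective
  haveI : IsAlgClosed k' := acl (k := k)
  by_contra hcon
  have hinj : ∀ x : Fin N → ℚ_[p], (∀ σ, ∑ j, x j • c j σ = 0) → x = 0 := by
    intro x hx
    by_contra hx0
    exact hcon ⟨x, hx0, hx⟩
  obtain ⟨n, β, hn⟩ := exists_basis c hc hinj
  have hp1 := one_ltR p
  have hp0 : (0 : ℝ) < p := by linarith
  have hpQ : (p : ℚ_[p]) ≠ 0 := by exact_mod_cast hpf.out.ne_zero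
  -- the cocycles of the basis
  let g : Lam c → (Sep F ≃ₐ[F] Sep F) → Fin d → ℤ_[p] :=
    fun x σ r => ⟨BB c (x : Fin N → ℚ_[p]) σ r, x.2 σ r⟩
  have hg : ∀ x σ r, ((g x σ r : ℤ_[p]) : ℚ_[p]) = BB c (x : Fin N → ℚ_[p]) σ r :=
    fun _ _ _ => rfl
  let f : Fin n → (Sep F ≃ₐ[F] Sep F) → Fin d → ZMod p := fun i σ r => PadicInt.toZMod (g (β i) σ r)
  have rmul : ∀ σ σ' : Sep F ≃ₐ[F] Sep F, (σ * σ').restrictScalars K =
      σ.restrictScalars K * σ'.restrictScalars K := fun _ _ => rfl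
  let res : (Sep F ≃ₐ[F] Sep F) →* (Sep F ≃ₐ[K] Sep F) :=
    { toFun := fun σ => σ.restrictScalars K
      map_one' := rfl
      map_mul' := rmul }
  let ρb : (Sep F ≃ₐ[F] Sep F) →* GL (Fin d) (ZMod p) :=
    ((Matrix.GeneralLinearGroup.map (PadicInt.toZMod : ℤ_[p] →+* ZMod p)).comp ρ).comp res
  have hρb : ∀ (σ : Sep F ≃ₐ[F] Sep F) (z : Fin d → ℤ_[p]) (r : Fin d),
      (ρb σ).1.mulVec (fun s => (PadicInt.toZMod (z s) : ZMod p)) r =
        PadicInt.toZMod ((ρ (σ.restrictScalars K)).1.mulVec z r) := by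
    intro σ z r
    exact (RingHom.map_mulVec (PadicInt.toZMod : ℤ_[p] →+* ZMod p)
      (ρ (σ.restrictScalars K)).1 z r).symm
  have hBmul : ∀ (z : Fin N → ℚ_[p]) (σ σ' : Sep F ≃ₐ[F] Sep F), BB c z (σ * σ') =
      BB c z σ + actQ ρ (σ.restrictScalars K) (BB c z σ') := by
    intro z σ σ'
    rw [BB_apply, BB_apply, BB_apply, actQ_sum, ← Finset.sum_add_distrib]
    refine Finset.sum_congr rfl fun j _ => ?_
    rw [hcmul, smul_add, actQ_smul]
  have hBcont : ∀ z : Fin N → ℚ_[p], Continuous fun σ => BB c z σ := by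
    intro z
    simp only [BB_apply]
    exact continuous_finset_sum _ fun j _ => (continuous_const_smul (z j)).comp (hc j)
  have hs' : s.map (algebraMap k k') ≠ 0 :=
    (Polynomial.map_ne_zero_iff (algebraMap k k').injective).2 hs
  have hdeg : (s.map (algebraMap k k')).natDegree * d < n := by
    rw [Polynomial.natDegree_map]
    omega
  have hmain := hDMF p k' F (s.map (algebraMap k k')) hs' d n ρb ?_ hdeg f ?_ ?_ ?_
  · -- the contradiction
    obtain ⟨x, hx0, hx⟩ := hmain
    let y : Fin n → ℤ_[p] := fun i => ((x i).val : ℤ_[p])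
    have hy : ∀ i, PadicInt.toZMod (y i) = x i := by
      intro i
      haveI : NeZero p := ⟨hpf.out.ne_zero⟩
      show PadicInt.toZMod (((x i).val : ℕ) : ℤ_[p]) = x i
      rw [map_natCast, ZMod.natCast_zmod_val]
    set w : Lam c := ∑ i, y i • β i with hw
    have hwg : ∀ σ r, g w σ r = ∑ i, y i * g (β i) σ r := by
      intro σ r
      apply PadicInt.ext
      rw [hg, hw]
      have h1 : ((∑ i, y i • β i : Lam c) : Fin N → ℚ_[p]) =
          ∑ i, (y i : ℚ_[p]) • ((β i : Lam c) : Fin N → ℚ_[p]) := by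
        rw [Submodule.coe_sum]
        rfl
      rw [h1, map_sum, Finset.sum_apply, Finset.sum_apply]
      have h2 : ((∑ i, y i * g (β i) σ r : ℤ_[p]) : ℚ_[p]) =
          ∑ i, ((y i * g (β i) σ r : ℤ_[p]) : ℚ_[p]) := by
        exact map_sum (algebraMap ℤ_[p] ℚ_[p]) _ _
      rw [h2]
      refine Finset.sum_congr rfl fun i _ => ?_
      rw [map_smul, PadicInt.coe_mul, hg]
      rfl
    have hwz : ∀ σ r, ‖BB c (w : Fin N → ℚ_[p]) σ r‖ ≤ (p : ℝ)⁻¹ := by
      intro σ r
      rw [← hg]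
      apply norm_of_toZMod
      rw [hwg, map_sum]
      have h1 := congrFun (hx σ) r
      rw [Finset.sum_apply] at h1
      refine Eq.trans ?_ h1
      refine Finset.sum_congr rfl fun i _ => ?_
      rw [map_mul, hy]
      rfl
    have hu : (p : ℚ_[p])⁻¹ • (w : Fin N → ℚ_[p]) ∈ Lam c := by
      intro σ r
      rw [map_smul]
      show ‖(p : ℚ_[p])⁻¹ * BB c (w : Fin N → ℚ_[p]) σ r‖ ≤ 1
      rw [norm_mul, norm_inv, norm_pQ, inv_inv]
      calc (p : ℝ) * ‖BB c (w : Fin N → ℚ_[p]) σ r‖ ≤ (p : ℝ) * (p : ℝ)⁻¹ := by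
            gcongr
            exact hwz σ r
        _ = 1 := mul_inv_cancel₀ hp0.ne'
    have hwu : w = (p : ℤ_[p]) • (⟨_, hu⟩ : Lam c) := by
      apply Subtype.ext
      show (w : Fin N → ℚ_[p]) = (((p : ℤ_[p]) : ℤ_[p]) : ℚ_[p]) • ((p : ℚ_[p])⁻¹ •
        (w : Fin N → ℚ_[p]))
      rw [PadicInt.coe_natCast, smul_smul, mul_inv_cancel₀ hpQ, one_smul]
    apply hx0
    funext i
    have h1 : β.repr w i = y i := by
      rw [hw, β.repr_sum_self]
    have h2 : β.repr w i = (p : ℤ_[p]) * β.repr ⟨_, hu⟩ i := by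
      conv_lhs => rw [hwu]
      rw [map_smul]
      rfl
    rw [← hy, ← h1, h2, map_mul, map_natCast, ZMod.natCast_self, zero_mul]
    rfl
  · intro σ
    obtain ⟨m, hm⟩ := hpro σ
    refine ⟨m, ?_⟩
    apply Units.ext
    ext i j
    have h1 := hm i j
    rw [toZMod_eq_zero, Matrix.sub_apply, map_sub, sub_eq_zero] at h1
    show PadicInt.toZMod ((ρ (res (σ ^ p ^ m))).1 i j) = (1 : Matrix (Fin d) (Fin d) (ZMod p)) i j
    rw [map_pow]
    show PadicInt.toZMod ((ρ ((σ.restrictScalars K) ^ p ^ m)).1 i j) = _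
    rw [h1, Matrix.one_apply, Matrix.one_apply]
    split_ifs <;> simp
  · intro i
    refine continuous_pi fun r => ?_
    have h2 : Continuous fun σ => g (β i) σ r :=
      Continuous.subtype_mk ((continuous_apply r).comp (hBcont _)) _
    exact cont_toZMod.comp h2
  · intro i σ σ'
    funext r
    show PadicInt.toZMod (g (β i) (σ * σ') r) = PadicInt.toZMod (g (β i) σ r) +
      (ρb σ).1.mulVec (f i σ') r
    have h1 : g (β i) (σ * σ') r = g (β i) σ r +
        (ρ (σ.restrictScalars K)).1.mulVec (g (β i) σ') r := by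
      apply PadicInt.ext
      rw [PadicInt.coe_add, coe_mulVec, hg, hg, hBmul]
      rfl
    rw [h1, map_add]
    congr 1
    exact (hρb _ _ _).symm
  · intro i v hv ι σ hσ
    funext r
    show PadicInt.toZMod (g (β i) σ r) = 0
    have h1 : g (β i) σ r = 0 := by
      apply PadicInt.ext
      rw [hg, PadicInt.coe_zero, BB_apply]
      have h2 : ∀ j, c j σ = 0 := by
        intro j
        obtain ⟨u, hu⟩ := cob_any (hcmul j) (hloc j v hv) ι
        have h3 := hun v hv ι σ hσ
        have h4 : ∀ w : Fin d → ℚ_[p], actQ ρ (σ.restrictScalars K) w = w := by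
          intro w
          unfold actQ
          rw [h3, Units.val_one, Matrix.map_one _ (map_zero _) (map_one _), Matrix.one_mulVec]
        rw [hu σ hσ, h4, sub_self]
      rw [Finset.sum_eq_zero (fun j _ => by rw [h2 j, smul_zero])]
      rfl
    rw [h1, map_zero]

end Pool.Agent.Helper39.Thin.DMQ
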